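import Mathlib

/-!
# Finite quotients of free groups separate cyclic subgroups
-/

set_option autoImplicit false

namespace Pool.Agent.V1164.GG

open FreeGroup

variable {α : Type}

section act

variable {X : Type} [MulAction (FreeGroup α) X] (S : Set X) [Finite S]

/-- the partial action of a generator on a finite set, as an equivalence of subtypes -/
def pe (x : α) : {s : S // of x • (s : X) ∈ S} ≃ {s : S // (of x)⁻¹ • (s : X) ∈ S} where
  toFun s := ⟨⟨of x • (s : X), s.2⟩, by simp⟩
  invFun s := ⟨⟨(of x)⁻¹ • (s : X), s.2⟩, by simp⟩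
  left_inv s := by
    ext
    simp
  right_inv s := by
    ext
    simp

open Classical in
/-- an extension of the partial action to a permutation -/
noncomputable def ext (x : α) : Equiv.Perm S :=
  letI : Fintype S := Fintype.ofFinite S
  Equiv.extendSubtype (pe S x)

lemma ext_apply (x : α) (s : S) (h : of x • (s : X) ∈ S) : ((ext S x s : S) : X) = of x • (s : X) := by
  classical
  unfold ext
  letI : Fintype S := Fintype.ofFinite S
  have := Equiv.extendSubtype_apply_of_mem (pe S x) s h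
  rw [this]
  rfl

lemma ext_inv_apply (x : α) (s : S) (h : (of x)⁻¹ • (s : X) ∈ S) :
    (((ext S x)⁻¹ s : S) : X) = (of x)⁻¹ • (s : X) := by
  have h1 : (ext S x) ⟨(of x)⁻¹ • (s : X), h⟩ = s := by
    apply Subtype.ext
    rw [ext_apply]
    · simp
    · simp
  have h2 : (ext S x)⁻¹ s = ⟨(of x)⁻¹ • (s : X), h⟩ := by
    rw [Equiv.Perm.inv_eq_iff_eq]
    exact h1.symm
  rw [h2]

lemma lift_mk_apply (p : X) (hp : p ∈ S) (L : List (α × Bool))
    (hL : ∀ L' : List (α × Bool), L' <:+ L → (mk L') • p ∈ S) :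
    ((FreeGroup.lift (ext S) (mk L) ⟨p, hp⟩ : S) : X) = (mk L) • p := by
  induction L with
  | nil => simp [← FreeGroup.one_eq_mk]
  | cons ℓ L ih =>
    have ih' := ih fun L' hL' => hL L' (hL'.trans (List.suffix_cons ℓ L))
    have hmem : (mk L) • p ∈ S := hL L (List.suffix_cons ℓ L)
    have hmem2 : (mk (ℓ :: L)) • p ∈ S := hL _ List.suffix_rfl
    have e : (mk (ℓ :: L) : FreeGroup α) = mk [ℓ] * mk L := by simp [FreeGroup.mul_mk]
    have e3 : (FreeGroup.lift (ext S) (mk L) ⟨p, hp⟩ : S) = ⟨(mk L) • p, hmem⟩ := Subtype.ext ih'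
    rw [e, _root_.map_mul, Equiv.Perm.mul_apply, e3, mul_smul]
    rw [e, mul_smul] at hmem2
    obtain ⟨x, b⟩ := ℓ
    cases b
    · have e2 : (mk [(x, false)] : FreeGroup α) = (of x)⁻¹ := by
        simp [FreeGroup.of, FreeGroup.inv_mk, FreeGroup.invRev]
      rw [e2] at hmem2 ⊢
      rw [_root_.map_inv, FreeGroup.lift_apply_of]
      exact ext_inv_apply S x ⟨(mk L) • p, hmem⟩ hmem2
    · have e2 : (mk [(x, true)] : FreeGroup α) = of x := rfl
      rw [e2] at hmem2 ⊢
      rw [FreeGroup.lift_apply_of]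
      exact ext_apply S x ⟨(mk L) • p, hmem⟩ hmem2

end act

/-- Free groups are cyclic subgroup separable: finite quotients separate `g` from the powers
of `h`. -/
theorem exists_finite_quotient [Finite α] (g h : FreeGroup α) (hg : g ∉ Subgroup.zpowers h) :
    ∃ (Q : Type) (_ : Group Q) (_ : Finite Q) (ψ : FreeGroup α →* Q),
      ψ g ∉ Subgroup.zpowers (ψ h) := by
  classical
  set p : FreeGroup α ⧸ Subgroup.zpowers h := ((1 : FreeGroup α) : FreeGroup α ⧸ Subgroup.zpowers h)
    with hp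
  set S : Set (FreeGroup α ⧸ Subgroup.zpowers h) :=
    (fun L : List (α × Bool) => mk L • p) '' ({L | L <:+ toWord g} ∪ {L | L <:+ toWord h}) with hS
  have hfin : S.Finite := by
    refine Set.Finite.image _ (Set.Finite.union ?_ ?_)
    · refine (List.finite_toSet (toWord g).tails).subset ?_
      intro L hL
      exact (List.mem_tails _ _).mpr hL
    · refine (List.finite_toSet (toWord h).tails).subset ?_
      intro L hL
      exact (List.mem_tails _ _).mpr hL
  haveI : Finite S := hfin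
  have hpS : p ∈ S := ⟨[], Or.inl (List.nil_suffix), by simp [← FreeGroup.one_eq_mk]⟩
  refine ⟨Equiv.Perm S, inferInstance, inferInstance, FreeGroup.lift (ext S), ?_⟩
  have h1 : ((FreeGroup.lift (ext S) (mk (toWord g)) ⟨p, hpS⟩ : S) : FreeGroup α ⧸ Subgroup.zpowers h)
      = (mk (toWord g)) • p := lift_mk_apply S p hpS _ fun L' hL' => ⟨L', Or.inl hL', rfl⟩
  have h2 : ((FreeGroup.lift (ext S) (mk (toWord h)) ⟨p, hpS⟩ : S) : FreeGroup α ⧸ Subgroup.zpowers h)
      = (mk (toWord h)) • p := lift_mk_apply S p hpS _ fun L' hL' => ⟨L', Or.inr hL', rfl⟩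
  rw [mk_toWord] at h1 h2
  have h3 : h • p = p := by
    rw [hp, MulAction.Quotient.smul_mk]
    rw [QuotientGroup.eq]
    simp
  have h4 : g • p ≠ p := by
    intro h5
    apply hg
    rw [hp, MulAction.Quotient.smul_mk] at h5
    rw [eq_comm, QuotientGroup.eq] at h5
    simpa using h5
  intro h6
  obtain ⟨k, hk⟩ := Subgroup.mem_zpowers_iff.mp h6
  have h7 : (FreeGroup.lift (ext S) h) ⟨p, hpS⟩ = ⟨p, hpS⟩ := Subtype.ext (h2.trans h3)
  have h8 : ((FreeGroup.lift (ext S) h) ^ k) ⟨p, hpS⟩ = ⟨p, hpS⟩ := by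
    have : (FreeGroup.lift (ext S) h) ∈ MulAction.stabilizer (Equiv.Perm S) (⟨p, hpS⟩ : S) := h7
    exact Subgroup.zpow_mem _ this k
  rw [hk] at h8
  apply h4
  rw [← h1, h8]

end Pool.Agent.V1164.GG
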