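import Pool.Agent.V1164.GG.Stab
import Pool.Agent.V1164.GG.Hall

/-!
# Cyclic subgroups are separable
-/

set_option autoImplicit false

namespace Pool.Agent.V1164.GG

noncomputable section

lemma finiteIndex_of_fun {Γ X : Type*} [Group Γ] [Finite X] (K : Subgroup Γ) (f : Γ → X)
    (h : ∀ x y, f x = f y → x⁻¹ * y ∈ K) : K.FiniteIndex := by
  have hinj : Function.Injective (fun q : Γ ⧸ K => f q.out) := by
    intro p q hpq
    have h1 := h _ _ hpq
    rw [← QuotientGroup.eq] at h1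
    simpa using h1
  have : Finite (Γ ⧸ K) := Finite.of_injective _ hinj
  exact Subgroup.finiteIndex_of_finite_quotient

/-- the exponent of `t` -/
def e (x : G) : ℤ := Multiplicative.toAdd x.right

lemma e_mul (x y : G) : e (x * y) = e x + e y := rfl

lemma e_inv (x : G) : e x⁻¹ = -e x := rfl

lemma e_one : e 1 = 0 := rfl

lemma e_zpow (x : G) (n : ℤ) : e (x ^ n) = n * e x := by
  induction n using Int.induction_on with
  | zero => simp [e_one]
  | succ m ih => rw [zpow_add, zpow_one, e_mul, ih]; ring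
  | pred m ih => rw [zpow_sub, zpow_one, e_mul, e_inv, ih]; ring

lemma mul_left' (x y : G) : (x * y).left = x.left * (φ0 ^ e x) y.left := rfl

lemma inv_left' (x : G) : (x⁻¹).left = (φ0 ^ (-e x)) x.left⁻¹ := by
  rw [SemidirectProduct.inv_left]
  rfl

section fin

variable {Q : Type} [Group Q] [Finite Q] (ψ : F →* Q)

lemma exists_period : ∃ m : ℕ, m ≠ 0 ∧ ∀ z, ψ ((φ0 ^ (m : ℤ)) z) = ψ z := by
  haveI : Finite (F →* Q) := Finite.of_equiv _ (FreeGroup.lift (α := Fin 3) (β := Q))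
  obtain ⟨i, j, hij, h⟩ := Finite.exists_ne_map_eq_of_infinite
    (fun i : ℕ => ψ.comp (φ0 ^ i).toMonoidHom)
  have key : ∀ i j : ℕ, i < j → ψ.comp (φ0 ^ i).toMonoidHom = ψ.comp (φ0 ^ j).toMonoidHom →
      ∃ m : ℕ, m ≠ 0 ∧ ∀ z, ψ ((φ0 ^ (m : ℤ)) z) = ψ z := by
    intro i j hij h
    refine ⟨j - i, by omega, fun z => ?_⟩
    have h1 := DFunLike.congr_fun h ((φ0 ^ (-(i : ℤ))) z)
    have h2 : ψ ((φ0 ^ (i : ℤ)) ((φ0 ^ (-(i : ℤ))) z)) =
        ψ ((φ0 ^ (j : ℤ)) ((φ0 ^ (-(i : ℤ))) z)) := by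
      rw [zpow_natCast, zpow_natCast]
      exact h1
    rw [← MulAut.mul_apply, ← MulAut.mul_apply, ← zpow_add, ← zpow_add] at h2
    rw [add_neg_cancel, zpow_zero, MulAut.one_apply] at h2
    rw [h2]
    congr 3
    push_cast [Nat.cast_sub hij.le]
    ring
  rcases lt_or_gt_of_ne hij with h1 | h1
  · exact key i j h1 h
  · exact key j i h1 h.symm

variable {ψ} {m : ℕ} (hm : ∀ z, ψ ((φ0 ^ (m : ℤ)) z) = ψ z)

include hm in
omit [Finite Q] in
lemma period_mul (q : ℤ) (z : F) : ψ ((φ0 ^ ((m : ℤ) * q)) z) = ψ z := by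
  rw [zpow_mul]
  have hinv : ∀ z, ψ ((φ0 ^ (m : ℤ))⁻¹ z) = ψ z := by
    intro z
    have := hm ((φ0 ^ (m : ℤ))⁻¹ z)
    rw [← MulAut.mul_apply, mul_inv_cancel, MulAut.one_apply] at this
    exact this.symm
  induction q using Int.induction_on generalizing z with
  | zero => simp
  | succ k ih => rw [zpow_add, zpow_one, MulAut.mul_apply, ih, hm]
  | pred k ih => rw [zpow_sub, zpow_one, MulAut.mul_apply, ih, hinv]

/-- the subgroup for the first case -/
def KA (hm : ∀ z, ψ ((φ0 ^ (m : ℤ)) z) = ψ z) (f : F) : Subgroup G where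
  carrier := {x | (m : ℤ) ∣ e x ∧ ψ x.left ∈ Subgroup.zpowers (ψ f)}
  mul_mem' := by
    rintro x y ⟨⟨q, hq⟩, h1⟩ ⟨h2, h3⟩
    refine ⟨?_, ?_⟩
    · rw [e_mul]
      exact dvd_add ⟨q, hq⟩ h2
    · rw [mul_left', map_mul, hq, period_mul hm]
      exact mul_mem h1 h3
  one_mem' := by
    refine ⟨by rw [e_one]; exact dvd_zero _, ?_⟩
    rw [SemidirectProduct.one_left, map_one]
    exact one_mem _
  inv_mem' := by
    rintro x ⟨⟨q, hq⟩, h1⟩
    refine ⟨?_, ?_⟩
    · rw [e_inv, hq]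
      exact ⟨-q, by ring⟩
    · rw [inv_left', hq]
      have e1 : -((m : ℤ) * q) = (m : ℤ) * (-q) := by ring
      rw [e1, period_mul hm, map_inv]
      exact inv_mem h1

lemma KA_finiteIndex (hm0 : m ≠ 0) (f : F) : (KA hm f).FiniteIndex := by
  haveI : NeZero m := ⟨hm0⟩
  refine finiteIndex_of_fun (KA hm f)
    (fun x => ((e x : ZMod m), ψ ((φ0 ^ (-e x)) x.left))) ?_
  intro x y h
  have h1 : ((e x : ℤ) : ZMod m) = ((e y : ℤ) : ZMod m) := congrArg Prod.fst h
  have h2 : ψ ((φ0 ^ (-e x)) x.left) = ψ ((φ0 ^ (-e y)) y.left) := congrArg Prod.snd h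
  have h3 : (m : ℤ) ∣ e y - e x := by
    rw [← ZMod.intCast_eq_intCast_iff_dvd_sub]
    exact h1
  obtain ⟨q, hq⟩ := h3
  refine ⟨?_, ?_⟩
  · rw [e_mul, e_inv]
    exact ⟨q, by rw [← hq]; ring⟩
  · rw [mul_left', inv_left', e_inv, map_mul, map_inv, map_inv, h2]
    have e1 : (φ0 ^ (-e x)) y.left = (φ0 ^ ((m : ℤ) * q)) ((φ0 ^ (-e y)) y.left) := by
      rw [← MulAut.mul_apply, ← zpow_add]
      congr 2
      rw [← hq]; ring
    rw [e1, period_mul hm, inv_mul_cancel]
    exact one_mem _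

/-- the normal subgroup for the second case -/
def NB (ψ : F →* Q) : Subgroup G where
  carrier := {x | e x = 0 ∧ ∀ i : ℤ, ψ ((φ0 ^ i) x.left) = 1}
  mul_mem' := by
    rintro x y ⟨h1, h2⟩ ⟨h3, h4⟩
    refine ⟨by rw [e_mul, h1, h3, add_zero], fun i => ?_⟩
    rw [mul_left', h1, zpow_zero, MulAut.one_apply, map_mul, map_mul, h2, h4, one_mul]
  one_mem' := by
    refine ⟨e_one, fun i => ?_⟩
    rw [SemidirectProduct.one_left, map_one, map_one]
  inv_mem' := by
    rintro x ⟨h1, h2⟩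
    refine ⟨by rw [e_inv, h1, neg_zero], fun i => ?_⟩
    rw [inv_left', h1, neg_zero, zpow_zero, MulAut.one_apply, map_inv, map_inv, h2, inv_one]

instance NB_normal (ψ : F →* Q) : (NB ψ).Normal := by
  refine ⟨?_⟩
  rintro n ⟨h1, h2⟩ x
  refine ⟨by rw [e_mul, e_mul, e_inv, h1]; ring, fun i => ?_⟩
  rw [mul_left', mul_left', inv_left', e_mul, h1, add_zero, ← MulAut.mul_apply, ← zpow_add,
    add_neg_cancel, zpow_zero, MulAut.one_apply]
  rw [map_mul, map_mul, map_mul, map_mul, map_inv, map_inv, ← MulAut.mul_apply, ← zpow_add, h2,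
    mul_one, mul_inv_cancel]

lemma KB_finiteIndex {m : ℕ} (hm : ∀ z, ψ ((φ0 ^ (m : ℤ)) z) = ψ z) (hm0 : m ≠ 0) (g : G)
    (hg : e g ≠ 0) : (NB ψ ⊔ Subgroup.zpowers g).FiniteIndex := by
  set k := e g with hk
  haveI : NeZero m := ⟨hm0⟩
  have hkpos : 0 < k.natAbs := Int.natAbs_pos.mpr hg
  haveI : NeZero k.natAbs := ⟨hkpos.ne'⟩
  refine finiteIndex_of_fun (NB ψ ⊔ Subgroup.zpowers g)
    (fun x => ((⟨(e x % k).toNat, by
      have h1 := Int.emod_nonneg (e x) hg
      have h2 := Int.emod_lt (e x) hg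
      omega⟩ : Fin k.natAbs),
      fun i : Fin m => ψ ((φ0 ^ ((i : ℕ) : ℤ)) (x * g ^ (-(e x / k))).left))) ?_
  intro x y h
  have h1 : (e x % k).toNat = (e y % k).toNat := by
    have := congrArg (fun p => (p.1 : Fin k.natAbs).val) h
    exact this
  have h2 : ∀ i : Fin m, ψ ((φ0 ^ ((i : ℕ) : ℤ)) (x * g ^ (-(e x / k))).left) =
      ψ ((φ0 ^ ((i : ℕ) : ℤ)) (y * g ^ (-(e y / k))).left) := by
    intro i
    exact congrFun (congrArg Prod.snd h) i
  have h3 : e x % k = e y % k := by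
    have a1 := Int.emod_nonneg (e x) hg
    have a2 := Int.emod_nonneg (e y) hg
    omega
  set x' := x * g ^ (-(e x / k)) with hx'
  set y' := y * g ^ (-(e y / k)) with hy'
  have h4 : ∀ i : ℤ, ψ ((φ0 ^ i) x'.left) = ψ ((φ0 ^ i) y'.left) := by
    intro i
    have hmz : (m : ℤ) ≠ 0 := by exact_mod_cast hm0
    have a1 := Int.emod_nonneg i hmz
    have a2 : i % (m : ℤ) < m := Int.emod_lt_of_pos i (by omega)
    have a3 : i = (m : ℤ) * (i / m) + (((i % m).toNat : ℕ) : ℤ) := by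
      rw [Int.toNat_of_nonneg a1]
      exact (Int.mul_ediv_add_emod i m).symm
    have a4 : (i % (m : ℤ)).toNat < m := by omega
    rw [a3, zpow_add, MulAut.mul_apply, MulAut.mul_apply, period_mul hm, period_mul hm]
    exact h2 ⟨_, a4⟩
  have ex' : e x' = e x % k := by
    rw [hx', e_mul, e_zpow, ← hk]
    have := Int.mul_ediv_add_emod (e x) k
    linear_combination -this
  have ey' : e y' = e y % k := by
    rw [hy', e_mul, e_zpow, ← hk]
    have := Int.mul_ediv_add_emod (e y) k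
    linear_combination -this
  have h5 : x'⁻¹ * y' ∈ NB ψ := by
    refine ⟨?_, fun i => ?_⟩
    · rw [e_mul, e_inv, ex', ey', h3]; ring
    · rw [mul_left', inv_left', e_inv, map_mul, map_mul, ← MulAut.mul_apply,
        ← MulAut.mul_apply, ← zpow_add, map_inv, map_inv, h4 (i + -e x'), inv_mul_cancel]
  have h6 : x⁻¹ * y = g ^ (-(e x / k)) * (x'⁻¹ * y') * g ^ (e y / k) := by
    rw [hx', hy']
    group
  rw [h6]
  refine mul_mem (mul_mem ?_ (Subgroup.mem_sup_left h5)) ?_
  · exact Subgroup.mem_sup_right ⟨_, rfl⟩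
  · exact Subgroup.mem_sup_right ⟨_, rfl⟩

end fin

/-- the subgroup of the elements whose exponent is divisible by `k` -/
def KC (k : ℤ) : Subgroup G where
  carrier := {x | k ∣ e x}
  mul_mem' := by
    intro x y h1 h2
    change k ∣ e (x * y)
    rw [e_mul]
    exact dvd_add h1 h2
  one_mem' := by
    change k ∣ e 1
    rw [e_one]
    exact dvd_zero _
  inv_mem' := by
    intro x h1
    change k ∣ e x⁻¹
    rw [e_inv]
    exact (dvd_neg).mpr h1

lemma KC_finiteIndex {k : ℤ} (hk : k ≠ 0) : (KC k).FiniteIndex := by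
  haveI : NeZero k.natAbs := ⟨(Int.natAbs_pos.mpr hk).ne'⟩
  refine finiteIndex_of_fun (KC k) (fun x => ((e x : ℤ) : ZMod k.natAbs)) ?_
  intro x y h
  have h1 : ((e x : ℤ) : ZMod k.natAbs) = ((e y : ℤ) : ZMod k.natAbs) := h
  rw [ZMod.intCast_eq_intCast_iff_dvd_sub] at h1
  change k ∣ e (x⁻¹ * y)
  rw [e_mul, e_inv]
  have h2 : k ∣ e y - e x := Int.natAbs_dvd.mp h1
  have h3 : -e x + e y = e y - e x := by ring
  rw [h3]; exact h2

lemma eq_inl {x : G} (h : e x = 0) : x = ι x.left := by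
  ext1
  · rw [SemidirectProduct.left_inl]
  · rw [SemidirectProduct.right_inl]
    exact Multiplicative.toAdd.injective h

theorem css (g h : G) (hgh : h ∉ Subgroup.zpowers g) :
    ∃ K : Subgroup G, K.FiniteIndex ∧ Subgroup.zpowers g ≤ K ∧ h ∉ K := by
  by_cases hg : e g = 0
  · by_cases hh : e h = 0
    · -- both elements are in the free group
      have hg' := eq_inl hg
      have hh' := eq_inl hh
      have h1 : h.left ∉ Subgroup.zpowers g.left := by
        rintro ⟨n, hn⟩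
        apply hgh
        refine ⟨n, ?_⟩
        have hn' : g.left ^ n = h.left := hn
        change g ^ n = h
        rw [hg', hh', ← hn', map_zpow]
      obtain ⟨Q, _, _, ψ, hψ⟩ := exists_finite_quotient h.left g.left h1
      obtain ⟨m, hm0, hm⟩ := exists_period ψ
      refine ⟨KA hm g.left, KA_finiteIndex hm hm0 _, ?_, fun hK => hψ hK.2⟩
      rw [Subgroup.zpowers_le]
      refine ⟨by rw [hg]; exact dvd_zero _, ?_⟩
      exact Subgroup.mem_zpowers _
    · refine ⟨KC (|e h| + 1), KC_finiteIndex (by positivity), ?_, ?_⟩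
      · rw [Subgroup.zpowers_le]
        change _ ∣ e g
        rw [hg]
        exact dvd_zero _
      · intro hK
        have h1 : (|e h| + 1) ∣ e h := hK
        have h2 := Int.le_of_dvd (abs_pos.mpr hh) ((dvd_abs _ _).mpr h1)
        omega
  · by_cases hd : e g ∣ e h
    · obtain ⟨q, hq⟩ := hd
      set f := h * g ^ (-q) with hf
      have hef : e f = 0 := by
        rw [hf, e_mul, e_zpow, hq]; ring
      have hf' := eq_inl hef
      have hf1 : f.left ≠ 1 := by
        intro h1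
        apply hgh
        refine ⟨q, ?_⟩
        change g ^ q = h
        have h2 : f = 1 := by rw [hf', h1, map_one]
        have h3 : h = f * g ^ q := by rw [hf]; group
        rw [h3, h2, one_mul]
      have h1 : f.left ∉ Subgroup.zpowers (1 : F) := by
        rw [Subgroup.zpowers_one_eq_bot, Subgroup.mem_bot]
        exact hf1
      obtain ⟨Q, _, _, ψ, hψ⟩ := exists_finite_quotient f.left 1 h1
      rw [map_one, Subgroup.zpowers_one_eq_bot, Subgroup.mem_bot] at hψ
      obtain ⟨m, hm0, hm⟩ := exists_period ψ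
      refine ⟨NB ψ ⊔ Subgroup.zpowers g, KB_finiteIndex hm hm0 g hg, le_sup_right, ?_⟩
      intro hK
      have h2 : f ∈ NB ψ ⊔ Subgroup.zpowers g := by
        rw [hf]
        exact mul_mem hK (Subgroup.mem_sup_right ⟨_, rfl⟩)
      rw [Subgroup.mem_sup_of_normal_left] at h2
      obtain ⟨n, hn, y, ⟨j, hj⟩, hnj⟩ := h2
      have hj' : g ^ j = y := hj
      have h3 : e f = j * e g := by
        rw [← hnj, e_mul, ← hj', e_zpow, hn.1, zero_add]
      rw [hef] at h3
      have h4 : j = 0 := by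
        rcases mul_eq_zero.mp h3.symm with h5 | h5
        · exact h5
        · exact absurd h5 hg
      rw [h4, zpow_zero] at hj'
      rw [← hj', mul_one] at hnj
      have h6 := hn.2 0
      rw [zpow_zero, MulAut.one_apply, hnj] at h6
      exact hψ h6
    · refine ⟨KC (e g), KC_finiteIndex hg, ?_, fun hK => hd hK⟩
      rw [Subgroup.zpowers_le]
      exact dvd_refl _

end

end Pool.Agent.V1164.GG
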