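import Pool.Agent.V1164.GG.Stab

/-!
# The subgroup `⟨a⟩` is not a virtual retract
-/

set_option autoImplicit false

namespace Pool.Agent.V1164.GG

noncomputable section

section

variable (K : Subgroup G) (r : K →* G)

open Classical in
/-- the retraction in terms of exponents -/
def χ (x : G) : ℤ := if h : x ∈ K then Multiplicative.toAdd (expA (r ⟨x, h⟩).left) else 0

variable {K r} (hr : ∀ k : K, r k ∈ Subgroup.zpowers (ι ga))

include hr in
lemma χ_mul {x y : G} (hx : x ∈ K) (hy : y ∈ K) : χ K r (x * y) = χ K r x + χ K r y := by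
  have hxy : x * y ∈ K := mul_mem hx hy
  rw [χ, χ, χ, dif_pos hx, dif_pos hy, dif_pos hxy]
  have h1 : r ⟨x * y, hxy⟩ = r ⟨x, hx⟩ * r ⟨y, hy⟩ := by
    rw [← map_mul]; rfl
  obtain ⟨i, hi⟩ := hr ⟨x, hx⟩
  have hi' : (ι ga) ^ i = r ⟨x, hx⟩ := hi
  have h2 : (r ⟨x, hx⟩).right = 1 := by
    rw [← hi', ← map_zpow, SemidirectProduct.right_inl]
  rw [h1, SemidirectProduct.mul_left, h2, map_one, MulAut.one_apply, map_mul]
  rfl

include hr in
lemma χ_inv {x : G} (hx : x ∈ K) : χ K r x⁻¹ = - χ K r x := by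
  have h := χ_mul hr hx (inv_mem hx)
  have h1 := χ_mul hr (one_mem K) (one_mem K)
  rw [mul_one] at h1
  rw [mul_inv_cancel] at h
  linarith

include hr in
lemma χ_conj {x n : G} (hx : x ∈ K) (hn : n ∈ K) : χ K r (n⁻¹ * x * n) = χ K r x := by
  rw [χ_mul hr (mul_mem (inv_mem hn) hx) hn, χ_mul hr (inv_mem hn) hx, χ_inv hr hn]
  ring

end

lemma gt_ι (y : F) : gt 1 * ι y = ι (φ0 y) * gt 1 := by
  ext1
  · rw [SemidirectProduct.mul_left, SemidirectProduct.mul_left, gt, SemidirectProduct.left_inr,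
      SemidirectProduct.right_inr, SemidirectProduct.left_inl, SemidirectProduct.left_inl,
      SemidirectProduct.right_inl, φ_apply, toAdd_ofAdd, zpow_one, map_one, one_mul, mul_one]
  · rw [SemidirectProduct.mul_right, SemidirectProduct.mul_right, SemidirectProduct.right_inl,
      SemidirectProduct.right_inl, one_mul, mul_one]

lemma comm_AT : gt 1 * ι ga = ι ga * gt 1 := by rw [gt_ι, φ0_ga]

lemma conj_B : (ι gb)⁻¹ * gt 1 * ι gb = ι ga * gt 1 := by
  rw [mul_assoc, gt_ι, φ0_gb, map_mul]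
  group

lemma conj_C : (ι gc)⁻¹ * gt 1 * ι gc = (ι ga)⁻¹ * gt 1 := by
  rw [mul_assoc, gt_ι, φ0_gc, map_mul, map_inv]
  group

theorem not_vrc (K : Subgroup G) (hK : K.FiniteIndex) (r : K →* G)
    (hr : ∀ k : K, r k ∈ Subgroup.zpowers (ι ga))
    (hle : Subgroup.zpowers (ι ga) ≤ K)
    (hid : ∀ k : K, (k : G) ∈ Subgroup.zpowers (ι ga) → r k = (k : G)) : False := by
  set N := K.normalCore with hN
  have hNK : N ≤ K := Subgroup.normalCore_le K
  haveI : N.FiniteIndex := inferInstance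
  set M := N.index with hM
  have hM0 : M ≠ 0 := Subgroup.FiniteIndex.index_ne_zero
  have hmem : ∀ x g : G, x⁻¹ * g ^ M * x ∈ N := by
    intro x g
    have h1 : g ^ M ∈ N := Subgroup.pow_index_mem N g
    have h2 := (inferInstance : N.Normal).conj_mem _ h1 x⁻¹
    rwa [inv_inv] at h2
  have hwd : ∀ (g x n : G), n ∈ N → χ K r ((x * n)⁻¹ * g ^ M * (x * n)) =
      χ K r (x⁻¹ * g ^ M * x) := by
    intro g x n hn
    have e1 : (x * n)⁻¹ * g ^ M * (x * n) = n⁻¹ * (x⁻¹ * g ^ M * x) * n := by group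
    rw [e1]
    exact χ_conj hr (hNK (hmem x g)) (hNK hn)
  haveI : Fintype (G ⧸ N) := Fintype.ofFinite _
  set Φ : G → (G ⧸ N) → ℤ := fun g c => χ K r (c.out⁻¹ * g ^ M * c.out) with hΦ
  have hΦm : ∀ g x : G, Φ g (x : G ⧸ N) = χ K r (x⁻¹ * g ^ M * x) := by
    intro g x
    have h1 : x⁻¹ * ((x : G ⧸ N)).out ∈ N := by
      rw [← QuotientGroup.eq]
      simp
    have h2 := hwd g x _ h1
    rw [mul_inv_cancel_left] at h2
    exact h2
  set q : G → ℤ := fun g => ∑ c, (Φ g c) ^ 2 with hq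
  have hconj : ∀ g h : G, q (h⁻¹ * g * h) = q g := by
    intro g h
    have h1 : ∀ c, Φ (h⁻¹ * g * h) c = Φ g (h • c) := by
      intro c
      obtain ⟨x, rfl⟩ := QuotientGroup.mk_surjective c
      rw [hΦm, MulAction.Quotient.smul_mk, hΦm]
      congr 1
      have e1 : (h⁻¹ * g * h) ^ M = h⁻¹ * g ^ M * h := by
        have := conj_pow (i := M) (a := h⁻¹) (b := g)
        rwa [inv_inv] at this
      rw [e1, smul_eq_mul]
      group
    simp only [hq]
    rw [Finset.sum_congr rfl fun c _ => by rw [h1 c]]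
    exact Equiv.sum_comp (MulAction.toPerm h) fun c => (Φ g c) ^ 2
  have hadd : ∀ g h : G, Commute g h → ∀ c, Φ (g * h) c = Φ g c + Φ h c := by
    intro g h hc c
    simp only [hΦ]
    rw [← χ_mul hr (hNK (hmem _ _)) (hNK (hmem _ _)), hc.mul_pow]
    congr 1
    group
  have hneg : ∀ g : G, ∀ c, Φ g⁻¹ c = - Φ g c := by
    intro g c
    simp only [hΦ]
    rw [← χ_inv hr (hNK (hmem _ _))]
    congr 1
    rw [inv_pow]
    group
  have hcomm : Commute (ι ga) (gt 1) := comm_AT.symm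
  have hq1 : q (gt 1) = q (ι ga * gt 1) := by rw [← conj_B, hconj]
  have hq2 : q (gt 1) = q ((ι ga)⁻¹ * gt 1) := by rw [← conj_C, hconj]
  have hq3 : q (ι ga * gt 1) = ∑ c, (Φ (ι ga) c + Φ (gt 1) c) ^ 2 :=
    Finset.sum_congr rfl fun c _ => by rw [hadd _ _ hcomm c]
  have hq4 : q ((ι ga)⁻¹ * gt 1) = ∑ c, (-Φ (ι ga) c + Φ (gt 1) c) ^ 2 :=
    Finset.sum_congr rfl fun c _ => by rw [hadd _ _ hcomm.inv_left c, hneg]
  rw [hq3] at hq1
  rw [hq4] at hq2
  have hq5 : q (gt 1) = ∑ c, (Φ (gt 1) c) ^ 2 := rfl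
  rw [hq5] at hq1 hq2
  have h0 : ∑ c, (Φ (ι ga) c) ^ 2 = 0 := by
    have e1 : ∑ c, (Φ (ι ga) c + Φ (gt 1) c) ^ 2 + ∑ c, (-Φ (ι ga) c + Φ (gt 1) c) ^ 2 =
        2 * ∑ c, (Φ (ι ga) c) ^ 2 + 2 * ∑ c, (Φ (gt 1) c) ^ 2 := by
      rw [Finset.mul_sum, Finset.mul_sum, ← Finset.sum_add_distrib, ← Finset.sum_add_distrib]
      refine Finset.sum_congr rfl fun c _ => ?_
      ring
    linarith
  rw [Finset.sum_eq_zero_iff_of_nonneg fun c _ => sq_nonneg _] at h0
  have h1 := h0 ((1 : G) : G ⧸ N) (Finset.mem_univ _)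
  rw [hΦm, inv_one, one_mul, mul_one, sq_eq_zero_iff] at h1
  have h2 : ι ga ^ M ∈ K := hle ⟨M, by simp⟩
  rw [χ, dif_pos h2, hid ⟨ι ga ^ M, h2⟩ ⟨M, by simp⟩] at h1
  have h3 : (((⟨ι ga ^ M, h2⟩ : K) : G)).left = ga ^ (M : ℤ) := by
    change (ι ga ^ M : G).left = _
    rw [← map_pow, SemidirectProduct.left_inl, zpow_natCast]
  rw [h3, expA_zpow, toAdd_ofAdd] at h1
  exact hM0 (by exact_mod_cast h1)

end

end Pool.Agent.V1164.GG
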