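import Pool.Agent.V1164.GG.Tree

/-!
# The group `F₃ ⋊ ℤ`, `b ↦ b a`, `c ↦ c a⁻¹`, and its tree
-/

set_option autoImplicit false

namespace Pool.Agent.V1164.GG

noncomputable section

/-- the free group of rank three -/
abbrev F : Type := FreeGroup (Fin 3)

/-- the generators -/
def ga : F := FreeGroup.of 0

/-- the generators -/
def gb : F := FreeGroup.of 1

/-- the generators -/
def gc : F := FreeGroup.of 2

/-- the automorphism -/
def fwd : F →* F := FreeGroup.lift ![ga, gb * ga, gc * ga⁻¹]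

/-- its inverse -/
def bwd : F →* F := FreeGroup.lift ![ga, gb * ga⁻¹, gc * ga]

lemma fwd_ga : fwd ga = ga := by simp [fwd, ga]

lemma fwd_gb : fwd gb = gb * ga := by simp [fwd, gb]

lemma fwd_gc : fwd gc = gc * ga⁻¹ := by simp [fwd, gc]

lemma bwd_ga : bwd ga = ga := by simp [bwd, ga]

lemma bwd_gb : bwd gb = gb * ga⁻¹ := by simp [bwd, gb]

lemma bwd_gc : bwd gc = gc * ga := by simp [bwd, gc]

/-- the automorphism -/
def φ0 : MulAut F := MonoidHom.toMulEquiv fwd bwd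
  (by
    ext i
    fin_cases i
    · change bwd (fwd ga) = ga
      rw [fwd_ga, bwd_ga]
    · change bwd (fwd gb) = gb
      rw [fwd_gb, map_mul, bwd_gb, bwd_ga]; group
    · change bwd (fwd gc) = gc
      rw [fwd_gc, map_mul, map_inv, bwd_gc, bwd_ga]; group)
  (by
    ext i
    fin_cases i
    · change fwd (bwd ga) = ga
      rw [bwd_ga, fwd_ga]
    · change fwd (bwd gb) = gb
      rw [bwd_gb, map_mul, map_inv, fwd_gb, fwd_ga]; group
    · change fwd (bwd gc) = gc
      rw [bwd_gc, map_mul, fwd_gc, fwd_ga]; group)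

lemma φ0_ga : φ0 ga = ga := fwd_ga

lemma φ0_gb : φ0 gb = gb * ga := fwd_gb

lemma φ0_gc : φ0 gc = gc * ga⁻¹ := fwd_gc

/-- the action of `ℤ` -/
def φ : Multiplicative ℤ →* MulAut F := zpowersHom (MulAut F) φ0

lemma φ_apply (k : Multiplicative ℤ) : φ k = φ0 ^ (Multiplicative.toAdd k) := rfl

/-- the group -/
abbrev G : Type := F ⋊[φ] Multiplicative ℤ

lemma φ_ga (k : Multiplicative ℤ) : φ k ga = ga := by
  have h : φ0 ∈ MulAction.stabilizer (MulAut F) ga := φ0_ga
  exact Subgroup.zpow_mem _ h _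

lemma φ_ga_zpow (k : Multiplicative ℤ) (i : ℤ) : φ k (ga ^ i) = ga ^ i := by
  rw [map_zpow, φ_ga]

/-- for `s ∈ {b, c}` the image of `s` under the action of `ℤ` is in the coset `s ⟨a⟩` -/
lemma φ_s (k : Multiplicative ℤ) (s : Fin 3) (hs : s ≠ 0) :
    ∃ i : ℤ, φ k (FreeGroup.of s) = FreeGroup.of s * ga ^ i := by
  have key : ∀ n : ℤ, ∃ i : ℤ, (φ0 ^ n) (FreeGroup.of s) = FreeGroup.of s * ga ^ i := by
    obtain ⟨e, he⟩ : ∃ e : ℤ, φ0 (FreeGroup.of s) = FreeGroup.of s * ga ^ e := by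
      fin_cases s
      · exact absurd rfl hs
      · exact ⟨1, by rw [zpow_one]; exact φ0_gb⟩
      · exact ⟨-1, by rw [zpow_neg_one]; exact φ0_gc⟩
    have he' : φ0⁻¹ (FreeGroup.of s) = FreeGroup.of s * ga ^ (-e) := by
      have h1 : φ0 (FreeGroup.of s * ga ^ (-e)) = FreeGroup.of s := by
        rw [map_mul, he, map_zpow, φ0_ga, mul_assoc, ← zpow_add]
        simp
      have h2 : φ0⁻¹ (φ0 (FreeGroup.of s * ga ^ (-e))) = FreeGroup.of s * ga ^ (-e) :=
        φ0.symm_apply_apply _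
      rw [h1] at h2
      exact h2
    intro n
    induction n using Int.induction_on with
    | zero => exact ⟨0, by simp⟩
    | succ m ih =>
      obtain ⟨i, hi⟩ := ih
      refine ⟨e + i, ?_⟩
      rw [add_comm (m : ℤ) 1, zpow_add, zpow_one, MulAut.mul_apply, hi, map_mul, he, map_zpow,
        φ0_ga, mul_assoc, ← zpow_add]
    | pred m ih =>
      obtain ⟨i, hi⟩ := ih
      refine ⟨-e + i, ?_⟩
      have h3 : φ0⁻¹ ga = ga := by
        have h2 : φ0⁻¹ (φ0 ga) = ga := φ0.symm_apply_apply _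
        rwa [φ0_ga] at h2
      rw [sub_eq_add_neg, add_comm (-(m : ℤ)) (-1), zpow_add, zpow_neg_one, MulAut.mul_apply, hi,
        map_mul, he', map_zpow, h3, mul_assoc, ← zpow_add]
  exact key _

/-- the subgroup `⟨a, t⟩` -/
def H : Subgroup G where
  carrier := {x | x.left ∈ Subgroup.zpowers ga}
  mul_mem' := by
    rintro x y ⟨i, hi⟩ ⟨j, hj⟩
    have hi' : ga ^ i = x.left := hi
    have hj' : ga ^ j = y.left := hj
    refine ⟨i + j, ?_⟩
    change ga ^ (i + j) = (x * y).left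
    rw [SemidirectProduct.mul_left, ← hi', ← hj', φ_ga_zpow, zpow_add]
  one_mem' := by
    change (1 : F) ∈ Subgroup.zpowers ga
    exact Subgroup.one_mem _
  inv_mem' := by
    rintro x ⟨i, hi⟩
    have hi' : ga ^ i = x.left := hi
    refine ⟨-i, ?_⟩
    change ga ^ (-i) = (x⁻¹).left
    rw [SemidirectProduct.inv_left, ← hi', map_inv, φ_ga_zpow, zpow_neg]

lemma mem_H (x : G) : x ∈ H ↔ ∃ i : ℤ, ga ^ i = x.left := by
  change x.left ∈ Subgroup.zpowers ga ↔ _
  rw [Subgroup.mem_zpowers_iff]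

/-- the vertices of the tree -/
abbrev V : Type := G ⧸ H

/-- the inclusion of the free group -/
abbrev ι : F →* G := SemidirectProduct.inl

lemma mk_eq_iff (x y : G) : (x : V) = (y : V) ↔ ∃ i : ℤ, y.left = x.left * ga ^ i := by
  rw [QuotientGroup.eq, mem_H]
  have h : (x⁻¹ * y).left = φ x.right⁻¹ (x.left⁻¹ * y.left) := by
    rw [SemidirectProduct.mul_left, SemidirectProduct.inv_left, SemidirectProduct.inv_right,
      map_mul]
  rw [h]
  constructor
  · rintro ⟨i, hi⟩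
    refine ⟨i, ?_⟩
    have h1 := congrArg (φ x.right) hi
    rw [φ_ga_zpow] at h1
    have h2 : φ x.right (φ x.right⁻¹ (x.left⁻¹ * y.left)) = x.left⁻¹ * y.left := by
      rw [← MulAut.mul_apply, ← map_mul]; simp
    rw [h2] at h1
    rw [h1]; group
  · rintro ⟨i, hi⟩
    refine ⟨i, ?_⟩
    rw [hi]
    have : x.left⁻¹ * (x.left * ga ^ i) = ga ^ i := by group
    rw [this, φ_ga_zpow]

lemma mk_eq_inl (x : G) : (x : V) = ((ι x.left : G) : V) := by
  rw [mk_eq_iff]
  exact ⟨0, by simp⟩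

/-! ### words -/

/-- remove the letters `a` at the beginning -/
def D (L : List (Fin 3 × Bool)) : List (Fin 3 × Bool) := L.dropWhile fun ℓ => ℓ.1 = 0

lemma toWord_cons (ℓ : Fin 3 × Bool) (y : F) :
    (∃ L', y.toWord = (ℓ.1, !ℓ.2) :: L' ∧ (FreeGroup.mk [ℓ] * y).toWord = L') ∨
      (FreeGroup.mk [ℓ] * y).toWord = ℓ :: y.toWord := by
  have h1 : (FreeGroup.mk [ℓ] * y).toWord = FreeGroup.reduce (ℓ :: y.toWord) := by
    rw [FreeGroup.toWord_mul, FreeGroup.toWord_mk, FreeGroup.reduce_singleton]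
    rfl
  rw [h1, FreeGroup.reduce.cons, FreeGroup.reduce_toWord]
  cases hy : y.toWord with
  | nil => right; rfl
  | cons hd tl =>
    by_cases h : ℓ.1 = hd.1 ∧ ℓ.2 = !hd.2
    · left
      refine ⟨tl, ?_, ?_⟩
      · congr 1
        ext
        · rw [h.1]
        · simp [h.2]
      · simp [h]
    · right
      simp only [h, if_false]

lemma D_letter (b : Bool) (y : F) : D (FreeGroup.mk [((0 : Fin 3), b)] * y).toWord = D y.toWord := by
  rcases toWord_cons ((0 : Fin 3), b) y with ⟨L', h1, h2⟩ | h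
  · rw [h2, h1]
    simp [D]
  · rw [h]
    simp [D]

lemma ga_eq : ga = FreeGroup.mk [((0 : Fin 3), true)] := rfl

lemma ga_inv_eq : ga⁻¹ = FreeGroup.mk [((0 : Fin 3), false)] := by
  simp [ga, FreeGroup.of, FreeGroup.inv_mk, FreeGroup.invRev]

lemma D_zpow (k : ℤ) (y : F) : D (ga ^ k * y).toWord = D y.toWord := by
  induction k using Int.induction_on with
  | zero => simp
  | succ m ih =>
    rw [add_comm (m : ℤ) 1, zpow_add, zpow_one, mul_assoc, ga_eq, D_letter, ← ga_eq, ih]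
  | pred m ih =>
    rw [sub_eq_add_neg, add_comm (-(m : ℤ)) (-1), zpow_add, zpow_neg_one, mul_assoc, ga_inv_eq,
      D_letter, ih]

lemma mk_a_mem (L : List (Fin 3 × Bool)) (h : ∀ ℓ ∈ L, ℓ.1 = 0) :
    ∃ k : ℤ, FreeGroup.mk L = ga ^ k := by
  induction L with
  | nil => exact ⟨0, by simp [← FreeGroup.one_eq_mk]⟩
  | cons ℓ L ih =>
    obtain ⟨k, hk⟩ := ih fun x hx => h x (List.mem_cons_of_mem _ hx)
    have e : (FreeGroup.mk (ℓ :: L) : F) = FreeGroup.mk [ℓ] * FreeGroup.mk L := by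
      simp [FreeGroup.mul_mk]
    obtain ⟨x, b⟩ := ℓ
    have hx : x = 0 := h (x, b) (by simp)
    subst hx
    cases b
    · refine ⟨-1 + k, ?_⟩
      rw [e, ← ga_inv_eq, hk, zpow_add, zpow_neg_one]
    · refine ⟨1 + k, ?_⟩
      rw [e, ← ga_eq, hk, zpow_add, zpow_one]

lemma decomp (y : F) : ∃ k : ℤ, y = ga ^ k * FreeGroup.mk (D y.toWord) := by
  obtain ⟨k, hk⟩ := mk_a_mem (y.toWord.takeWhile fun ℓ => ℓ.1 = 0) (by
    intro ℓ hℓ
    have := List.mem_takeWhile_imp hℓ
    simpa using this)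
  refine ⟨k, ?_⟩
  rw [← hk]
  unfold D
  rw [FreeGroup.mul_mk, List.takeWhile_append_dropWhile, FreeGroup.mk_toWord]

lemma D_suffix (L : List (Fin 3 × Bool)) : D L <:+ L := List.dropWhile_suffix _

lemma D_head {L L' : List (Fin 3 × Bool)} {ℓ : Fin 3 × Bool} (h : D L = ℓ :: L') : ℓ.1 ≠ 0 := by
  induction L with
  | nil => simp [D] at h
  | cons x L ih =>
    by_cases hx : x.1 = 0
    · apply ih
      rw [← h]
      simp [D, hx]
    · have : D (x :: L) = x :: L := by simp [D, hx]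
      rw [this] at h
      injection h with h1 h2
      rw [← h1]; exact hx

lemma reduce_D_tail (y : F) (ℓ : Fin 3 × Bool) (L : List (Fin 3 × Bool))
    (h : D y.toWord = ℓ :: L) : (FreeGroup.mk L : F).toWord = L := by
  rw [FreeGroup.toWord_mk]
  have h1 : FreeGroup.IsReduced y.toWord := FreeGroup.isReduced_toWord
  have h2 : L <:+ y.toWord := by
    have := D_suffix y.toWord
    rw [h] at this
    exact (List.suffix_cons ℓ L).trans this
  have h3 : FreeGroup.IsReduced L := List.IsChain.suffix h1 h2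
  exact h3.reduce_eq

/-! ### the tree -/

/-- the normal form of a vertex -/
def ν (v : V) : List (Fin 3 × Bool) := D (v.out.left⁻¹).toWord

lemma ν_mk (x : G) : ν (x : V) = D (x.left⁻¹).toWord := by
  unfold ν
  have h : ((x : V).out : V) = (x : V) := QuotientGroup.out_eq' _
  obtain ⟨i, hi⟩ := (mk_eq_iff _ _).mp h
  have e : (x : V).out.left⁻¹ = ga ^ i * x.left⁻¹ := by
    rw [hi]; group
  rw [e, D_zpow]

/-- the root of the tree -/
def r : V := ((1 : G) : V)

/-- the parent of a vertex -/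
def par (v : V) : V := ((ι (FreeGroup.mk (ν v).tail)⁻¹ : G) : V)

lemma ν_r : ν r = [] := by
  unfold r
  rw [ν_mk]
  simp [D]

lemma eq_r_of_ν {v : V} (h : ν v = []) : v = r := by
  obtain ⟨x, rfl⟩ := QuotientGroup.mk_surjective v
  rw [ν_mk] at h
  obtain ⟨k, hk⟩ := decomp x.left⁻¹
  rw [h, ← FreeGroup.one_eq_mk, mul_one] at hk
  unfold r
  rw [mk_eq_iff]
  refine ⟨k, ?_⟩
  rw [← hk]; simp

lemma len_par (v : V) (hv : v ≠ r) : (ν (par v)).length < (ν v).length := by
  have hne : ν v ≠ [] := fun h => hv (eq_r_of_ν h)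
  obtain ⟨ℓ, L, hL⟩ := List.exists_cons_of_ne_nil hne
  have h1 : par v = ((ι (FreeGroup.mk L)⁻¹ : G) : V) := by
    unfold par; rw [hL]; rfl
  rw [h1, ν_mk, SemidirectProduct.left_inl, inv_inv, hL]
  have h2 : (FreeGroup.mk L : F).toWord = L := reduce_D_tail _ ℓ L hL
  rw [h2]
  have h3 := (D_suffix L).length_le
  simp only [List.length_cons]
  omega

/-- the adjacency relation -/
def adj (u v : V) : Prop := ∃ (g : G) (s : Fin 3), s ≠ 0 ∧
  ((u = (g : V) ∧ v = ((g * ι (FreeGroup.of s) : G) : V)) ∨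
    (v = (g : V) ∧ u = ((g * ι (FreeGroup.of s) : G) : V)))

lemma adj_symm {u v : V} (h : adj u v) : adj v u := by
  obtain ⟨g, s, hs, h⟩ := h
  exact ⟨g, s, hs, h.symm⟩

lemma adj_smul (x : G) {u v : V} (h : adj u v) : adj (x • u) (x • v) := by
  obtain ⟨g, s, hs, ⟨rfl, rfl⟩ | ⟨rfl, rfl⟩⟩ := h
  · refine ⟨x * g, s, hs, Or.inl ⟨rfl, ?_⟩⟩
    rw [mul_assoc]; rfl
  · refine ⟨x * g, s, hs, Or.inr ⟨rfl, ?_⟩⟩
    rw [mul_assoc]; rfl

/-- one half of the comparison with the parent function -/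
lemma adj_half (g : G) (s : Fin 3) (hs : s ≠ 0) (u v : V) (hu : u = (g : V))
    (hv : v = ((g * ι (FreeGroup.of s) : G) : V)) :
    (u ≠ r ∧ par u = v) ∨ (v ≠ r ∧ par v = u) := by
  set y : F := g.left⁻¹ with hy
  obtain ⟨i, hi⟩ := φ_s g.right s hs
  have hv' : v = ((ι (g.left * FreeGroup.of s) : G) : V) := by
    rw [hv, mk_eq_iff]
    refine ⟨-i, ?_⟩
    rw [SemidirectProduct.left_inl, SemidirectProduct.mul_left, SemidirectProduct.left_inl, hi]
    group
  have hνu : ν u = D y.toWord := by rw [hu, ν_mk]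
  have hsinv : (FreeGroup.of s : F)⁻¹ = FreeGroup.mk [(s, false)] := by
    simp [FreeGroup.of, FreeGroup.inv_mk, FreeGroup.invRev]
  have hνv : ν v = D (FreeGroup.mk [(s, false)] * y).toWord := by
    rw [hv', ν_mk, SemidirectProduct.left_inl, mul_inv_rev, hsinv]
  have hs' : ¬ (s = 0) := hs
  rcases toWord_cons (s, false) y with ⟨L', h1, h2⟩ | h
  · left
    have h3 : ν u = (s, true) :: L' := by
      rw [hνu, h1]
      simp [D, hs']
    constructor
    · intro h4
      rw [h4, ν_r] at h3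
      exact absurd h3 (by simp)
    · unfold par
      rw [h3, hv']
      have h4 : (FreeGroup.mk L' : F) = FreeGroup.mk [(s, false)] * y := by
        rw [← h2, FreeGroup.mk_toWord]
      simp only [List.tail_cons]
      rw [h4, mul_inv_rev, ← hsinv, hy, inv_inv, inv_inv]
  · right
    have h3 : ν v = (s, false) :: y.toWord := by
      rw [hνv, h]
      simp [D, hs']
    constructor
    · intro h4
      rw [h4, ν_r] at h3
      exact absurd h3 (by simp)
    · unfold par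
      rw [h3]
      simp only [List.tail_cons]
      rw [FreeGroup.mk_toWord, hy, inv_inv, hu, mk_eq_inl g]

lemma adj_of_par (u : V) (hu : u ≠ r) : adj u (par u) := by
  have hne : ν u ≠ [] := fun h => hu (eq_r_of_ν h)
  obtain ⟨ℓ, L, hL⟩ := List.exists_cons_of_ne_nil hne
  have h1 : par u = ((ι (FreeGroup.mk L)⁻¹ : G) : V) := by
    unfold par; rw [hL]; rfl
  obtain ⟨x, rfl⟩ := QuotientGroup.mk_surjective u
  have hL' := hL
  rw [ν_mk] at hL'
  obtain ⟨k, hk⟩ := decomp x.left⁻¹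
  rw [hL'] at hk
  have hℓ : ℓ.1 ≠ 0 := D_head hL'
  have e : (FreeGroup.mk (ℓ :: L) : F) = FreeGroup.mk [ℓ] * FreeGroup.mk L := by
    simp [FreeGroup.mul_mk]
  have hx : x.left = (FreeGroup.mk L)⁻¹ * (FreeGroup.mk [ℓ])⁻¹ * ga ^ (-k) := by
    rw [← inv_inv x.left, hk, e]; group
  have hx' : (x : V) = ((ι ((FreeGroup.mk L)⁻¹ * (FreeGroup.mk [ℓ])⁻¹) : G) : V) := by
    rw [mk_eq_iff]
    refine ⟨k, ?_⟩
    rw [SemidirectProduct.left_inl, hx]; group
  rw [h1, hx']
  obtain ⟨s, b⟩ := ℓ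
  cases b
  · -- the letter is `s⁻¹`
    have h5 : (FreeGroup.mk [(s, false)] : F)⁻¹ = FreeGroup.of s := by
      simp [FreeGroup.of, FreeGroup.inv_mk, FreeGroup.invRev]
    refine ⟨ι (FreeGroup.mk L)⁻¹, s, hℓ, Or.inr ⟨rfl, ?_⟩⟩
    rw [h5, map_mul]
  · have h5 : (FreeGroup.mk [(s, true)] : F) = FreeGroup.of s := rfl
    refine ⟨ι ((FreeGroup.mk L)⁻¹ * (FreeGroup.mk [(s, true)])⁻¹), s, hℓ, Or.inl ⟨rfl, ?_⟩⟩
    rw [h5, ← map_mul]
    congr 2
    group

/-- the tree -/
def T : SimpleGraph V where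
  Adj := adj
  symm := ⟨fun _ _ h => adj_symm h⟩
  loopless := ⟨by
    rintro u ⟨g, s, hs, h⟩
    have h' : (u ≠ r ∧ par u = u) ∨ (u ≠ r ∧ par u = u) := by
      rcases h with ⟨h1, h2⟩ | ⟨h1, h2⟩
      · exact adj_half g s hs u u h1 h2
      · exact adj_half g s hs u u h1 h2
    have h2 : u ≠ r ∧ par u = u := by tauto
    have h3 := len_par u h2.1
    rw [h2.2] at h3
    exact lt_irrefl _ h3⟩

lemma T_adj (u v : V) : T.Adj u v ↔ adj u v := Iff.rfl

theorem T_isTree : T.IsTree := by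
  refine isTree_of_parent T r par (fun v => (ν v).length) len_par ?_
  intro u v
  rw [T_adj]
  constructor
  · rintro ⟨g, s, hs, ⟨h1, h2⟩ | ⟨h1, h2⟩⟩
    · exact adj_half g s hs u v h1 h2
    · exact (adj_half g s hs v u h1 h2).symm
  · rintro (⟨h1, rfl⟩ | ⟨h1, rfl⟩)
    · exact adj_of_par u h1
    · exact adj_symm (adj_of_par v h1)

end

end Pool.Agent.V1164.GG
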