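import Pool.Agent.V1164.GG.Grp

/-!
# Stabilizers
-/

set_option autoImplicit false

namespace Pool.Agent.V1164.GG

noncomputable section

/-- the stable letter -/
def gt (k : ℤ) : G := SemidirectProduct.inr (Multiplicative.ofAdd k)

/-- the exponent sum of `a` -/
def expA : F →* Multiplicative ℤ :=
  FreeGroup.lift ![Multiplicative.ofAdd 1, 1, 1]

lemma expA_zpow (i : ℤ) : expA (ga ^ i) = Multiplicative.ofAdd i := by
  rw [map_zpow]
  have : expA ga = Multiplicative.ofAdd 1 := by simp [expA, ga]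
  rw [this, ← ofAdd_zsmul]
  simp

/-- an action of the free group on `ℤ`: `a` is a translation, `b` and `c` are `x ↦ -x` -/
def dih : F →* Equiv.Perm ℤ :=
  FreeGroup.lift ![Equiv.addRight 1, Equiv.neg ℤ, Equiv.neg ℤ]

lemma dih_ga : dih ga = Equiv.addRight 1 := by simp [dih, ga]

lemma dih_zpow (i x : ℤ) : dih (ga ^ i) x = x + i := by
  rw [map_zpow, dih_ga]
  induction i using Int.induction_on generalizing x with
  | zero => simp
  | succ m ih =>
    rw [zpow_add, zpow_one, Equiv.Perm.mul_apply, ih]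
    simp only [Equiv.coe_addRight]
    ring
  | pred m ih =>
    rw [zpow_sub, zpow_one, Equiv.Perm.mul_apply, ih]
    have : (Equiv.addRight (1 : ℤ))⁻¹ x = x - 1 := by
      rw [Equiv.Perm.inv_eq_iff_eq]
      simp
    rw [this]
    ring

lemma conj_a {s : Fin 3} (hs : s ≠ 0) {i j : ℤ}
    (h : (FreeGroup.of s)⁻¹ * ga ^ i * FreeGroup.of s = ga ^ j) : i = 0 := by
  have h1 := congrArg expA h
  rw [map_mul, map_mul, expA_zpow, expA_zpow, map_inv, mul_comm, ← mul_assoc,
    mul_inv_cancel, one_mul] at h1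
  have h1' : i = j := Multiplicative.ofAdd.injective h1
  have h2 := congrArg (fun f => dih f 0) h
  simp only [map_mul, map_inv, Equiv.Perm.mul_apply] at h2
  rw [dih_zpow] at h2
  have hd : dih (FreeGroup.of s) = Equiv.neg ℤ := by
    fin_cases s
    · exact absurd rfl hs
    · simp [dih]
    · simp [dih]
  rw [hd] at h2
  have h3 : (Equiv.neg ℤ) 0 + i = i := by simp
  rw [h3, dih_zpow] at h2
  have h4 : (Equiv.neg ℤ)⁻¹ i = -i := by
    rw [Equiv.Perm.inv_eq_iff_eq]
    simp
  rw [h4] at h2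
  omega

lemma ga_zpow_inj {i j : ℤ} (h : ga ^ i = ga ^ j) : i = j := by
  have := congrArg expA h
  rw [expA_zpow, expA_zpow] at this
  exact Multiplicative.ofAdd.injective this

/-- elements of the free group which fix an edge are trivial -/
lemma eq_one_of_fix {g x : G} {s : Fin 3} (hs : s ≠ 0) (hx : x.right = 1)
    (h1 : x • (g : V) = (g : V))
    (h2 : x • ((g * ι (FreeGroup.of s) : G) : V) = ((g * ι (FreeGroup.of s) : G) : V)) : x = 1 := by
  rw [MulAction.Quotient.smul_mk, eq_comm, QuotientGroup.eq] at h1 h2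
  set y := g⁻¹ * (x * g) with hy
  have h1' : y ∈ H := by
    rw [smul_eq_mul] at h1
    exact h1
  have h2' : (ι (FreeGroup.of s))⁻¹ * y * ι (FreeGroup.of s) ∈ H := by
    rw [smul_eq_mul] at h2
    have e : (ι (FreeGroup.of s))⁻¹ * y * ι (FreeGroup.of s) =
        (g * ι (FreeGroup.of s))⁻¹ * (x * (g * ι (FreeGroup.of s))) := by
      rw [hy]; group
    rw [e]; exact h2
  have hyr : y.right = 1 := by
    rw [hy]
    simp [hx]
  obtain ⟨i, hi⟩ := (mem_H _).mp h1'
  have hy' : y = ι (ga ^ i) := by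
    ext1
    · rw [SemidirectProduct.left_inl, hi]
    · rw [SemidirectProduct.right_inl, hyr]
  rw [hy', ← map_inv, ← map_mul, ← map_mul] at h2'
  obtain ⟨j, hj⟩ := (mem_H _).mp h2'
  rw [SemidirectProduct.left_inl] at hj
  have hi0 := conj_a hs hj.symm
  rw [hi0, zpow_zero, map_one] at hy'
  have : x = g * y * g⁻¹ := by rw [hy]; group
  rw [this, hy']; group

theorem edge_cyclic (u v : V) (h : T.Adj u v) :
    IsCyclic ↥(MulAction.stabilizer G u ⊓ MulAction.stabilizer G v) := by
  set K := MulAction.stabilizer G u ⊓ MulAction.stabilizer G v with hK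
  have hinj : Function.Injective ((SemidirectProduct.rightHom : G →* Multiplicative ℤ).comp
      K.subtype) := by
    rw [injective_iff_map_eq_one]
    rintro ⟨x, hx⟩ h1
    have hxr : x.right = 1 := h1
    have hx1 : x • u = u := hx.1
    have hx2 : x • v = v := hx.2
    apply Subtype.ext
    obtain ⟨g, s, hs, ⟨rfl, rfl⟩ | ⟨rfl, rfl⟩⟩ := h
    · exact eq_one_of_fix hs hxr hx1 hx2
    · exact eq_one_of_fix hs hxr hx2 hx1
  exact isCyclic_of_injective _ hinj

/-- the parametrization of `⟨a, t⟩` -/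
def θ : Multiplicative (Fin 2 → ℤ) →* G where
  toFun n := ⟨ga ^ (Multiplicative.toAdd n 0), Multiplicative.ofAdd (Multiplicative.toAdd n 1)⟩
  map_one' := by
    ext1 <;> simp
  map_mul' m n := by
    ext1
    · simp only [toAdd_mul, Pi.add_apply, SemidirectProduct.mul_left]
      rw [φ_ga_zpow, zpow_add]
    · rfl

lemma θ_inj : Function.Injective θ := by
  intro m n h
  have h1 := congrArg (fun x : G => x.left) h
  have h2 := congrArg (fun x : G => x.right) h
  have h1' : Multiplicative.toAdd m 0 = Multiplicative.toAdd n 0 := ga_zpow_inj h1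
  have h2' : Multiplicative.toAdd m 1 = Multiplicative.toAdd n 1 := Multiplicative.ofAdd.injective h2
  apply Multiplicative.toAdd.injective
  funext i
  fin_cases i
  · exact h1'
  · exact h2'

lemma mem_H_iff (x : G) : x ∈ H ↔ ∃ n, θ n = x := by
  rw [mem_H]
  constructor
  · rintro ⟨i, hi⟩
    refine ⟨Multiplicative.ofAdd ![i, Multiplicative.toAdd x.right], ?_⟩
    ext1
    · exact hi
    · rfl
  · rintro ⟨n, rfl⟩
    exact ⟨_, rfl⟩

theorem vertex_stab (v : V) : ∃ n : ℕ,
    Nonempty (↥(MulAction.stabilizer G v) ≃* Multiplicative (Fin n → ℤ)) := by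
  obtain ⟨g, rfl⟩ := QuotientGroup.mk_surjective v
  refine ⟨2, ?_⟩
  set f : Multiplicative (Fin 2 → ℤ) →* G := (MulAut.conj g).toMonoidHom.comp θ with hf
  have hinj : Function.Injective f := (MulAut.conj g).injective.comp θ_inj
  have hrange : MulAction.stabilizer G ((g : G) : V) = f.range := by
    ext x
    rw [MulAction.mem_stabilizer_iff, MulAction.Quotient.smul_mk, eq_comm, QuotientGroup.eq,
      smul_eq_mul, mem_H_iff, MonoidHom.mem_range]
    constructor
    · rintro ⟨n, hn⟩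
      refine ⟨n, ?_⟩
      change g * θ n * g⁻¹ = x
      rw [hn]; group
    · rintro ⟨n, hn⟩
      refine ⟨n, ?_⟩
      have hn' : g * θ n * g⁻¹ = x := hn
      rw [← hn']; group
  exact ⟨(MulEquiv.subgroupCongr hrange).trans (MonoidHom.ofInjective hinj).symm⟩

/-- the exponent sum of `b` and `c` -/
def expBC : F →* Multiplicative ℤ :=
  FreeGroup.lift ![1, Multiplicative.ofAdd 1, Multiplicative.ofAdd 1]

lemma expBC_φ0 (y : F) : expBC (φ0 y) = expBC y := by
  have h : expBC.comp φ0.toMonoidHom = expBC := by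
    ext i
    fin_cases i
    · change Multiplicative.toAdd (expBC (φ0 ga)) = _
      rw [φ0_ga]; rfl
    · change Multiplicative.toAdd (expBC (φ0 gb)) = Multiplicative.toAdd (expBC gb)
      rw [φ0_gb]
      simp [expBC, ga, gb]
    · change Multiplicative.toAdd (expBC (φ0 gc)) = Multiplicative.toAdd (expBC gc)
      rw [φ0_gc]
      simp [expBC, ga, gc]
  exact DFunLike.congr_fun h y

lemma expBC_φ (k : Multiplicative ℤ) (y : F) : expBC (φ k y) = expBC y := by
  rw [φ_apply]
  generalize Multiplicative.toAdd k = n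
  have hinv : ∀ y, expBC (φ0⁻¹ y) = expBC y := by
    intro y
    have := expBC_φ0 (φ0⁻¹ y)
    rw [← MulAut.mul_apply, mul_inv_cancel, MulAut.one_apply] at this
    exact this.symm
  induction n using Int.induction_on generalizing y with
  | zero => simp
  | succ m ih => rw [zpow_add, zpow_one, MulAut.mul_apply, ih, expBC_φ0]
  | pred m ih => rw [zpow_sub, zpow_one, MulAut.mul_apply, ih, hinv]

/-- the exponent sum of `b` and `c` -/
def E (x : G) : ℤ := Multiplicative.toAdd (expBC x.left)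

lemma E_mul (x y : G) : E (x * y) = E x + E y := by
  unfold E
  rw [SemidirectProduct.mul_left, map_mul, expBC_φ, toAdd_mul]

lemma E_H {x : G} (hx : x ∈ H) : E x = 0 := by
  obtain ⟨i, hi⟩ := (mem_H _).mp hx
  unfold E
  rw [← hi, map_zpow]
  simp [expBC, ga]

lemma E_congr {x y : G} (h : (x : V) = (y : V)) : E x = E y := by
  rw [QuotientGroup.eq] at h
  have h1 := E_H h
  have h2 : y = x * (x⁻¹ * y) := by group
  rw [h2, E_mul, h1, add_zero]

lemma E_s {s : Fin 3} (hs : s ≠ 0) : E (ι (FreeGroup.of s)) = 1 := by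
  unfold E
  rw [SemidirectProduct.left_inl]
  fin_cases s
  · exact absurd rfl hs
  · simp [expBC]
  · simp [expBC]

lemma no_inv_aux (x g : G) {s : Fin 3} (hs : s ≠ 0)
    (h1 : x • (g : V) = ((g * ι (FreeGroup.of s) : G) : V))
    (h2 : x • ((g * ι (FreeGroup.of s) : G) : V) = (g : V)) : False := by
  rw [MulAction.Quotient.smul_mk, smul_eq_mul] at h1 h2
  have e1 := E_congr h1
  have e2 := E_congr h2
  rw [E_mul, E_mul, E_s hs] at e1
  rw [E_mul, E_mul, E_s hs] at e2
  omega

theorem no_inversion (x : G) (u v : V) (h : T.Adj u v) : ¬ (x • u = v ∧ x • v = u) := by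
  rintro ⟨h1, h2⟩
  obtain ⟨g, s, hs, ⟨rfl, rfl⟩ | ⟨rfl, rfl⟩⟩ := h
  · exact no_inv_aux x g hs h1 h2
  · exact no_inv_aux x g hs h2 h1

theorem vertex_orbits : ∃ S : Finset V, ∀ v : V, ∃ g : G, g • v ∈ S := by
  refine ⟨{r}, fun v => ?_⟩
  obtain ⟨g, rfl⟩ := QuotientGroup.mk_surjective v
  refine ⟨g⁻¹, ?_⟩
  rw [Finset.mem_singleton]
  have : g⁻¹ • ((g : G) : V) = ((g⁻¹ * g : G) : V) := rfl
  change g⁻¹ • ((g : G) : V) = r
  rw [this, inv_mul_cancel]
  rfl

theorem edge_orbits : ∃ E : Finset (V × V), ∀ u v : V, T.Adj u v →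
    ∃ g : G, (g • u, g • v) ∈ E := by
  classical
  refine ⟨(Finset.univ : Finset (Fin 3)).image (fun s => (r, ((ι (FreeGroup.of s) : G) : V))) ∪
    (Finset.univ : Finset (Fin 3)).image (fun s => (((ι (FreeGroup.of s) : G) : V), r)), ?_⟩
  have hr : ∀ g : G, g⁻¹ • ((g : G) : V) = r := by
    intro g
    have : g⁻¹ • ((g : G) : V) = ((g⁻¹ * g : G) : V) := rfl
    rw [this, inv_mul_cancel]
    rfl
  have hs' : ∀ (g : G) (s : Fin 3), g⁻¹ • ((g * ι (FreeGroup.of s) : G) : V) =
      ((ι (FreeGroup.of s) : G) : V) := by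
    intro g s
    have : g⁻¹ • ((g * ι (FreeGroup.of s) : G) : V) = ((g⁻¹ * (g * ι (FreeGroup.of s)) : G) : V) :=
      rfl
    rw [this, inv_mul_cancel_left]
  rintro u v ⟨g, s, hs, ⟨rfl, rfl⟩ | ⟨rfl, rfl⟩⟩
  · refine ⟨g⁻¹, ?_⟩
    rw [hr, hs', Finset.mem_union]
    left
    exact Finset.mem_image_of_mem _ (Finset.mem_univ s)
  · refine ⟨g⁻¹, ?_⟩
    rw [hr, hs', Finset.mem_union]
    right
    exact Finset.mem_image_of_mem (fun s => (((ι (FreeGroup.of s) : G) : V), r)) (Finset.mem_univ s)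

end

end Pool.Agent.V1164.GG
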