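import Mathlib

/-!
# Trees from parent functions, finite quotients of free groups separating cyclic subgroups
-/

set_option autoImplicit false

namespace Pool.Agent.V1164.GG

open SimpleGraph

/-- A graph whose adjacency is given by a parent function which decreases a length is a tree. -/
theorem isTree_of_parent {V : Type*} (T : SimpleGraph V) (r : V) (par : V → V) (len : V → ℕ)
    (hlen : ∀ v, v ≠ r → len (par v) < len v)
    (hT : ∀ u v, T.Adj u v ↔ (u ≠ r ∧ par u = v) ∨ (v ≠ r ∧ par v = u)) : T.IsTree := by
  have hreach : ∀ n v, len v = n → T.Reachable v r := by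
    intro n
    induction n using Nat.strong_induction_on with
    | _ n ih =>
      intro v hv
      by_cases h : v = r
      · rw [h]
      · have h1 : T.Adj v (par v) := (hT _ _).mpr (Or.inl ⟨h, rfl⟩)
        exact h1.reachable.trans (ih _ (hv ▸ hlen v h) _ rfl)
  have hcon : T.Connected := by
    haveI : Nonempty V := ⟨r⟩
    exact ⟨fun u v => (hreach _ u rfl).trans (hreach _ v rfl).symm⟩
  refine ⟨hcon, ?_⟩
  intro v c hc
  classical
  -- a vertex of maximal length
  obtain ⟨m, hm, hmax⟩ := c.support.toFinset.exists_max_image len
    ⟨v, by simp⟩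
  have hm' : m ∈ c.support := by simpa using hm
  have hc' : (c.rotate m hm').IsCycle := hc.rotate hm'
  have hsup : ∀ x ∈ (c.rotate m hm').support, len x ≤ len m := by
    intro x hx
    refine hmax x ?_
    have := (Walk.mem_support_rotate_iff c m hm' (w := x)).mp hx
    simpa using this
  set c' := c.rotate m hm' with hc'def
  have hnn : ¬ c'.Nil := hc'.not_nil
  have h1 : T.Adj m c'.snd := c'.adj_snd hnn
  have h2 : T.Adj c'.penultimate m := c'.adj_penultimate hnn
  have key : ∀ x ∈ c'.support, T.Adj m x → par m = x := by
    intro x hx hadj
    rcases (hT _ _).mp hadj with h | h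
    · exact h.2
    · exfalso
      have a1 := hlen x h.1
      rw [h.2] at a1
      have a2 := hsup x hx
      omega
  have e1 := key _ (c'.getVert_mem_support _) h1
  have e2 := key _ (c'.getVert_mem_support _) h2.symm
  exact hc'.snd_ne_penultimate (e1.symm.trans e2)

end Pool.Agent.V1164.GG
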